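import Mathlib
import Pool.Agent.Hhelper43.Cube.Defs
import Pool.Agent.Hhelper43.Cube.Upper

set_option autoImplicit false

namespace Pool.Agent.Hhelper43.Cube.C14S


lemma flip_cons_zero {n : ℕ} (b : Bool) (v : V n) :
    flip (Fin.cons b v : V (n + 1)) 0 = Fin.cons (!b) v := by
  funext i
  rw [flip_apply]
  refine Fin.cases ?_ (fun j => ?_) i
  · simp
  · simp

lemma flip_cons_succ {n : ℕ} (b : Bool) (v : V n) (i : Fin n) :
    flip (Fin.cons b v : V (n + 1)) i.succ = Fin.cons b (flip v i) := by
  funext j
  rw [flip_apply]
  refine Fin.cases ?_ (fun k => ?_) j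
  · simp [(Fin.succ_ne_zero i).symm]
  · simp [flip_apply]

/-- A zero-one function on the edges of the cube with even sum on every square is the
coboundary of a zero-one function on the vertices. -/
theorem coc : ∀ (n : ℕ) (h : V n → Fin n → Bool) (_ : ∀ u i, h (flip u i) i = h u i)
    (_ : ∀ u i j, i ≠ j → xor (xor (h u i) (h (flip u i) j)) (xor (h u j) (h (flip u j) i))
      = false),
    ∃ P : V n → Bool, ∀ u i, P (flip u i) = xor (P u) (h u i)
  | 0, _, _, _ => ⟨fun _ => false, fun _ i => i.elim0⟩
  | n + 1, h, h1, h2 => by
    obtain ⟨P, hP⟩ := coc n (fun v i => h (Fin.cons false v) i.succ)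
      (by
        intro u i
        have := h1 (Fin.cons false u) i.succ
        rw [flip_cons_succ] at this
        exact this)
      (by
        intro u i j hij
        have := h2 (Fin.cons false u) i.succ j.succ (fun e => hij (Fin.succ_injective _ e))
        rw [flip_cons_succ, flip_cons_succ] at this
        exact this)
    refine ⟨fun u => xor (P (Fin.tail u)) (u 0 && h (Fin.cons false (Fin.tail u)) 0), ?_⟩
    intro u i
    obtain ⟨b, v, rfl⟩ : ∃ b v, u = (Fin.cons b v : V (n + 1)) :=
      ⟨u 0, Fin.tail u, (Fin.cons_self_tail u).symm⟩
    revert i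
    refine Fin.cases ?_ (fun j => ?_)
    · rw [flip_cons_zero]
      simp only [Fin.tail_cons, Fin.cons_zero]
      cases b
      · simp
      · have := h1 (Fin.cons false v) 0
        rw [flip_cons_zero] at this
        rw [Bool.not_false] at this
        rw [this]
        simp
    · rw [flip_cons_succ]
      simp only [Fin.tail_cons, Fin.cons_zero]
      have hp := hP v j
      rw [hp]
      cases b
      · simp
      · have := h2 (Fin.cons false v) j.succ 0 (Fin.succ_ne_zero j)
        rw [flip_cons_zero, flip_cons_succ, Bool.not_false] at this
        generalize h (Fin.cons false v) j.succ = x1 at *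
        generalize h (Fin.cons false (flip v j)) 0 = x2 at *
        generalize h (Fin.cons false v) 0 = x3 at *
        generalize h (Fin.cons true v) j.succ = x4 at *
        generalize P v = x5 at *
        clear hp
        revert this
        revert x1 x2 x3 x4 x5
        decide

end Pool.Agent.Hhelper43.Cube.C14S
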