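import Mathlib
import Pool.Agent.Hhelper43.Cube.Defs
import Pool.Agent.Hhelper43.Cube.Upper
import Pool.Agent.Hhelper43.Cube.Lower

set_option autoImplicit false

namespace Pool.Agent.Hhelper43.Cube.C14S

/-- `x` and `y` are joined by a walk of the cube all of whose edges have colour `c`: they lie in the same
component of the subgraph of edges of colour `c`. -/
def Joined {n : ℕ} (χ : Sym2 (V n) → Bool) (c : Bool) (x y : V n) : Prop :=
  ∃ p : (Q n).Walk x y, ∀ e ∈ p.edges, χ e = c

/-- A colouring is tree-like when on every 4-cycle `a b c d` whose colours alternate, the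
opposite edges `ab`, `cd` lie in the same component of their colour or the opposite edges
`bc`, `da` lie in the same component of theirs. -/
def TreeLike {n : ℕ} (χ : Sym2 (V n) → Bool) : Prop :=
  ∀ a b c d : V n, (Q n).Adj a b → (Q n).Adj b c → (Q n).Adj c d → (Q n).Adj d a →
    a ≠ c → b ≠ d → χ s(a, b) = χ s(c, d) → χ s(b, c) = χ s(d, a) → χ s(a, b) ≠ χ s(b, c) →
    Joined χ (χ s(a, b)) a d ∨ Joined χ (χ s(b, c)) a b

/-- A colouring is simple when no 4-cycle `a b c d` has alternating colours. -/
def Simple {n : ℕ} (χ : Sym2 (V n) → Bool) : Prop :=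
  ∀ a b c d : V n, (Q n).Adj a b → (Q n).Adj b c → (Q n).Adj c d → (Q n).Adj d a →
    a ≠ c → b ≠ d →
    ¬ (χ s(a, b) = χ s(c, d) ∧ χ s(b, c) = χ s(d, a) ∧ χ s(a, b) ≠ χ s(b, c))

/-- The layered colouring: the colour of an edge is the parity of the smaller weight of its
ends, the weight of a vertex being the number of its coordinates equal to one. -/
def layered (n : ℕ) : Sym2 (V n) → Bool :=
  Sym2.lift ⟨fun x y => decide (Even (min (wt x) (wt y))),
    fun x y => congrArg (fun k => decide (Even k)) (min_comm (wt x) (wt y))⟩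

end Pool.Agent.Hhelper43.Cube.C14S
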