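import Mathlib
import Pool.Agent.C14S.Defs
import Pool.Agent.C14S.Coc

set_option autoImplicit false

namespace Pool.Agent.Hhelper43.Cube.C14S

variable {n : ℕ}

lemma rtg_symm {α : Type*} {r : α → α → Prop} (hr : ∀ a b, r a b → r b a) {a b : α}
    (h : Relation.ReflTransGen r a b) : Relation.ReflTransGen r b a := by
  induction h with
  | refl => exact Relation.ReflTransGen.refl
  | tail _ hbc ih => exact Relation.ReflTransGen.head (hr _ _ hbc) ih

/-- One step along an edge of colour `c`. -/
def E (χ : Sym2 (V n) → Bool) (c : Bool) (u v : V n) : Prop := (Q n).Adj u v ∧ χ s(u, v) = c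

/-- Joined by edges of colour `c`. -/
def Cn (χ : Sym2 (V n) → Bool) (c : Bool) : V n → V n → Prop := Relation.ReflTransGen (E χ c)

lemma E_symm {χ : Sym2 (V n) → Bool} {c : Bool} {u v : V n} (h : E χ c u v) : E χ c v u :=
  ⟨h.1.symm, by rw [Sym2.eq_swap]; exact h.2⟩

lemma Cn_refl (χ : Sym2 (V n) → Bool) (c : Bool) (u : V n) : Cn χ c u u :=
  Relation.ReflTransGen.refl

lemma Cn_trans {χ : Sym2 (V n) → Bool} {c : Bool} {u v w : V n} (h : Cn χ c u v)
    (h' : Cn χ c v w) : Cn χ c u w := Relation.ReflTransGen.trans h h'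

lemma Cn_symm {χ : Sym2 (V n) → Bool} {c : Bool} {u v : V n} (h : Cn χ c u v) : Cn χ c v u :=
  rtg_symm (fun _ _ h => E_symm h) h

lemma Cn_of_E {χ : Sym2 (V n) → Bool} {c : Bool} {u v : V n} (h : E χ c u v) : Cn χ c u v :=
  Relation.ReflTransGen.single h

lemma Cn_flip {χ : Sym2 (V n) → Bool} {c : Bool} {u : V n} {i : Fin n} (h : ecol χ u i = c) :
    Cn χ c u (flip u i) := Cn_of_E ⟨adj_flip u i, h⟩

lemma Cn_of_joined {χ : Sym2 (V n) → Bool} {c : Bool} {u v : V n} (h : Joined χ c u v) :
    Cn χ c u v := by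
  obtain ⟨p, hp⟩ := h
  induction p with
  | nil => exact Cn_refl _ _ _
  | cons hab p ih =>
    rw [SimpleGraph.Walk.edges_cons] at hp
    refine Cn_trans (Cn_of_E ⟨hab, hp _ (by simp)⟩) (ih fun e he => hp e ?_)
    exact List.mem_cons_of_mem _ he

/-- The tree-like condition in coordinates. -/
def TL (χ : Sym2 (V n) → Bool) : Prop :=
  ∀ (u : V n) (i j : Fin n), i ≠ j → ecol χ u i = ecol χ (flip u j) i →
    ecol χ u j = ecol χ (flip u i) j → ecol χ u i ≠ ecol χ u j →
    Cn χ (ecol χ u i) u (flip u j) ∨ Cn χ (ecol χ u j) u (flip u i)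

lemma flip_comm (u : V n) (i j : Fin n) : flip (flip u i) j = flip (flip u j) i := by
  funext k
  simp only [flip_apply]
  split_ifs <;> rfl

lemma TL_of {χ : Sym2 (V n) → Bool} (h : TreeLike χ) : TL χ := by
  intro u i j hij h1 h2 h3
  have e1 : χ s(flip (flip u i) j, flip u j) = ecol χ (flip u j) i := by
    rw [flip_comm, Sym2.eq_swap]; rfl
  have e2 : χ s(flip u j, u) = ecol χ u j := by
    rw [Sym2.eq_swap]; rfl
  have := h u (flip u i) (flip (flip u i) j) (flip u j) (adj_flip u i) (adj_flip _ j)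
    (by rw [flip_comm]; exact (adj_flip _ i).symm) (adj_flip u j).symm
    (by
      intro e
      have := congrFun e i
      rw [flip_apply, flip_apply, if_neg hij, if_pos rfl] at this
      simp at this)
    (by
      intro e
      have := congrFun e i
      rw [flip_apply, flip_apply, if_neg hij, if_pos rfl] at this
      simp at this)
    (by rw [e1]; exact h1) (by rw [e2]; exact h2.symm)
    (by
      change ecol χ u i ≠ ecol χ (flip u i) j
      rw [← h2]; exact h3)
  rcases this with h | h
  · left; exact Cn_of_joined h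
  · right
    have := Cn_of_joined h
    change Cn χ (ecol χ (flip u i) j) u (flip u i) at this
    rw [← h2] at this
    exact this

/-- Joined outside the component of colour `c` of `s`. -/
def Out (χ : Sym2 (V n) → Bool) (c : Bool) (s : V n) : V n → V n → Prop :=
  Relation.ReflTransGen (fun u v => (Q n).Adj u v ∧ ¬ Cn χ c s u ∧ ¬ Cn χ c s v)

lemma Out_symm {χ : Sym2 (V n) → Bool} {c : Bool} {s u v : V n} (h : Out χ c s u v) :
    Out χ c s v u :=
  rtg_symm (fun _ _ h => ⟨h.1.symm, h.2.2, h.2.1⟩) h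

lemma Out_not {χ : Sym2 (V n) → Bool} {c : Bool} {s u v : V n} (hu : ¬ Cn χ c s u)
    (h : Out χ c s u v) : ¬ Cn χ c s v := by
  rcases Relation.ReflTransGen.cases_tail h with h | ⟨w, _, h⟩
  · rw [h]; exact hu
  · exact h.2.2

lemma dec_aux (p q r : Prop) [Decidable p] [Decidable q] [Decidable r]
    [Decidable (¬ (p ↔ q) ∧ r)] :
    decide (¬ (p ↔ q) ∧ r) = (xor (decide p) (decide q) && decide r) := by
  by_cases hp : p <;> by_cases hq : q <;> by_cases hr : r <;> simp [hp, hq, hr]

lemma xor_aux (p q : Prop) [Decidable p] [Decidable q] :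
    (¬ (p ↔ q)) = (xor (decide p) (decide q) = true) := by
  by_cases hp : p <;> by_cases hq : q <;> simp [hp, hq]

lemma iff_aux (p q : Prop) [Decidable p] [Decidable q] :
    (p ↔ q) = (decide p = decide q) := by
  by_cases hp : p <;> by_cases hq : q <;> simp [hp, hq]

lemma par_aux : ∀ (da db dd de ca cb cd ce : Bool),
    ((da ^^ dd) = true → (db ^^ de) = true → ca = cb) →
    ((da ^^ dd) = true → ca = cd) →
    ((da ^^ db) = true → (dd ^^ de) = true → ca = cd) →
    ((da ^^ db) = true → ca = cb) →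
    ((db ^^ de) = true → cb = ce) →
    ((dd ^^ de) = true → cd = ce) →
    ((da ^^ db) && ca ^^ (db ^^ de) && cb ^^ ((da ^^ dd) && ca ^^ (dd ^^ de) && cd)) = false := by
  decide

theorem branch_adj {χ : Sym2 (V n) → Bool} (hT : TL χ) {c : Bool} {s z w z1 w1 : V n}
    (hz : Cn χ c s z) (hw : Cn χ c s w) (hz1 : ¬ Cn χ c s z1) (hzz : (Q n).Adj z z1)
    (hww : (Q n).Adj w w1) (ho : Out χ c s z1 w1) : Cn χ (!c) z w := by
  classical
  set D : V n → Prop := fun v => Out χ c s z1 v with hD
  set C : V n → Prop := fun v => Cn χ (!c) z v with hC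
  have f1 : ∀ v, D v → ¬ Cn χ c s v := fun v hv => Out_not hz1 hv
  have f2 : ∀ u v, D u → (Q n).Adj u v → ¬ Cn χ c s v → D v := fun u v hu huv hv =>
    Relation.ReflTransGen.tail hu ⟨huv, f1 u hu, hv⟩
  have f4 : ∀ u i, D u → ¬ D (flip u i) → ecol χ u i = !c := by
    intro u i hu hv
    by_contra hne
    have hc : ecol χ u i = c := by
      cases h1 : ecol χ u i <;> cases c <;> simp_all
    have h3 : Cn χ c s (flip u i) := by
      by_contra h4
      exact hv (f2 u _ hu (adj_flip u i) h4)
    exact f1 u hu (Cn_trans h3 (Cn_symm (Cn_flip hc)))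
  have f5 : ∀ u i, ¬ (D u ↔ D (flip u i)) → ecol χ u i = !c := by
    intro u i hb
    by_cases hu : D u
    · exact f4 u i hu (fun h => hb ⟨fun _ => h, fun _ => hu⟩)
    · have hv : D (flip u i) := by
        by_contra h
        exact hb ⟨fun h' => absurd h' hu, fun h' => absurd h' h⟩
      have := f4 (flip u i) i hv (by rw [flip_flip]; exact hu)
      rwa [ecol_flip] at this
  have f6 : ∀ u i, ecol χ u i = (!c) → (C u ↔ C (flip u i)) := fun u i h =>
    ⟨fun h' => Cn_trans h' (Cn_flip h), fun h' => Cn_trans h' (Cn_symm (Cn_flip h))⟩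
  have f7 : ∀ u i j, i ≠ j → ¬ (D u ↔ D (flip u i)) → ¬ (D (flip u j) ↔ D (flip (flip u j) i)) →
      (C u ↔ C (flip u j)) := by
    intro u i j hij h1 h2
    have c1 := f5 _ _ h1
    have c2 := f5 _ _ h2
    by_cases h3 : ecol χ u j = !c
    · exact f6 _ _ h3
    by_cases h4 : ecol χ (flip u i) j = !c
    · have e1 := f6 _ _ c1
      have e2 := f6 _ _ c2
      have e4 := f6 _ _ h4
      rw [flip_comm] at e4
      exact (e1.trans e4).trans e2.symm
    have h3' : ecol χ u j = c := by
      cases h : ecol χ u j <;> cases c <;> simp_all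
    have h4' : ecol χ (flip u i) j = c := by
      cases h : ecol χ (flip u i) j <;> cases c <;> simp_all
    rcases hT u i j hij (by rw [c1, c2]) (by rw [h3', h4']) (by rw [c1, h3']; simp) with h | h
    · rw [c1] at h
      exact ⟨fun h' => Cn_trans h' h, fun h' => Cn_trans h' (Cn_symm h)⟩
    · rw [h3'] at h
      exfalso
      by_cases hu : D u
      · have hv : ¬ D (flip u i) := fun h => h1 ⟨fun _ => h, fun _ => hu⟩
        have : Cn χ c s (flip u i) := by
          by_contra h5
          exact hv (f2 u _ hu (adj_flip u i) h5)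
        exact f1 u hu (Cn_trans this (Cn_symm h))
      · have hv : D (flip u i) := by
          by_contra h
          exact h1 ⟨fun h' => absurd h' hu, fun h' => absurd h' h⟩
        have : Cn χ c s u := by
          by_contra h5
          exact hu (f2 _ _ hv (adj_flip u i).symm h5)
        exact f1 _ hv (Cn_trans this h)
  obtain ⟨P, hP⟩ := coc n (fun u i => decide (¬ (D u ↔ D (flip u i)) ∧ C u))
    (by
      intro u i
      rw [flip_flip, decide_eq_decide]
      constructor
      · rintro ⟨h1, h2⟩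
        have h1' : ¬ (D u ↔ D (flip u i)) := fun h => h1 h.symm
        exact ⟨h1', (f6 u i (f5 u i h1')).mpr h2⟩
      · rintro ⟨h1, h2⟩
        exact ⟨fun h => h1 h.symm, (f6 u i (f5 u i h1)).mp h2⟩)
    (by
      intro u i j hij
      have a1 : ¬ (D u ↔ D (flip u i)) → (C u ↔ C (flip u i)) := fun h => f6 _ _ (f5 _ _ h)
      have a2 : ¬ (D (flip u i) ↔ D (flip (flip u i) j)) →
        (C (flip u i) ↔ C (flip (flip u i) j)) := fun h => f6 _ _ (f5 _ _ h)
      have a3 : ¬ (D u ↔ D (flip u j)) → (C u ↔ C (flip u j)) := fun h => f6 _ _ (f5 _ _ h)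
      have a4 : ¬ (D (flip u j) ↔ D (flip (flip u j) i)) →
        (C (flip u j) ↔ C (flip (flip u j) i)) := fun h => f6 _ _ (f5 _ _ h)
      have a5 := f7 u i j hij
      have a6 := f7 u j i hij.symm
      rw [flip_comm u j i] at *
      rw [dec_aux, dec_aux, dec_aux, dec_aux]
      rw [xor_aux, iff_aux] at a1 a2 a3 a4
      rw [xor_aux, xor_aux, iff_aux] at a5 a6
      generalize decide (D u) = da at *
      generalize decide (D (flip u i)) = db at *
      generalize decide (D (flip u j)) = dd at *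
      generalize decide (D (flip (flip u i) j)) = de at *
      generalize decide (C u) = ca at *
      generalize decide (C (flip u i)) = cb at *
      generalize decide (C (flip u j)) = cd at *
      generalize decide (C (flip (flip u i) j)) = ce at *
      exact par_aux da db dd de ca cb cd ce a6 a3 a5 a1 a2 a4)
  have g1 : ∀ v, Out χ c s z1 v → P v = P z1 := by
    intro v hv
    induction hv with
    | refl => rfl
    | tail hab hbc ih =>
      rename_i b d
      obtain ⟨i, rfl⟩ := adj_iff _ _ hbc.1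
      rw [hP, ih]
      have hb : D b := hab
      have hd : D (flip b i) := Relation.ReflTransGen.tail hab hbc
      simp [hb, hd]
  have g2 : ∀ v, Cn χ c s v → P v = P s := by
    intro v hv
    induction hv with
    | refl => rfl
    | tail hab hbc ih =>
      rename_i b d
      obtain ⟨i, rfl⟩ := adj_iff _ _ hbc.1
      rw [hP, ih]
      have hb : ¬ D b := fun h => f1 _ h hab
      have hd : ¬ D (flip b i) := fun h => f1 _ h (Relation.ReflTransGen.tail hab hbc)
      simp [hb, hd]
  obtain ⟨i, rfl⟩ := adj_iff _ _ hzz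
  obtain ⟨j, rfl⟩ := adj_iff _ _ hww
  have p1 := hP z i
  have p2 := hP w j
  rw [g1 _ ho, g2 w hw] at p2
  rw [g2 z hz, p2] at p1
  have d1 : ¬ D z := fun h => f1 _ h hz
  have d2 : D (flip z i) := Relation.ReflTransGen.refl
  have d3 : C z := Cn_refl _ _ _
  have hh : decide (¬ (D w ↔ D (flip w j)) ∧ C w) = true := by
    have : decide (¬ (D z ↔ D (flip z i)) ∧ C z) = true := by simp [d1, d2, d3]
    rw [this] at p1
    revert p1
    generalize decide (¬ (D w ↔ D (flip w j)) ∧ C w) = x
    generalize P s = y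
    revert x y
    decide
  exact (of_decide_eq_true hh).2

/-- The two steps into one branch at a component start in the same class of the other
colour. -/
theorem branch {χ : Sym2 (V n) → Bool} (hT : TL χ) {c : Bool} {s z w z1 w1 : V n}
    (hz : Cn χ c s z) (hw : Cn χ c s w) (hz1 : ¬ Cn χ c s z1) (hw1 : ¬ Cn χ c s w1)
    (hzz : Cn χ (!c) z z1) (hww : Cn χ (!c) w w1) (ho : Out χ c s z1 w1) :
    Cn χ (!c) z w := by
  have key : ∀ (z1 : V n), ¬ Cn χ c s z1 → ∀ a, Cn χ (!c) a z1 →
      (¬ Cn χ c s a ∧ Out χ c s a z1) ∨ ∃ z' z'', Cn χ (!c) a z' ∧ Cn χ c s z' ∧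
        (Q n).Adj z' z'' ∧ ¬ Cn χ c s z'' ∧ Out χ c s z'' z1 := by
    intro z1 hz1 a ha
    induction ha using Relation.ReflTransGen.head_induction_on with
    | refl => left; exact ⟨hz1, Relation.ReflTransGen.refl⟩
    | head hab hbc ih =>
      rename_i a b
      rcases ih with ⟨h1, h2⟩ | ⟨z', z'', h1, h2⟩
      · by_cases ha : Cn χ c s a
        · right
          exact ⟨a, b, Cn_refl _ _ _, ha, hab.1, h1, h2⟩
        · left
          exact ⟨ha, Relation.ReflTransGen.head ⟨hab.1, ha, h1⟩ h2⟩
      · right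
        exact ⟨z', z'', Cn_trans (Cn_of_E hab) h1, h2⟩
  rcases key z1 hz1 z hzz with ⟨h, _⟩ | ⟨a, a', a1, a2, a3, a4, a5⟩
  · exact absurd hz h
  rcases key w1 hw1 w hww with ⟨h, _⟩ | ⟨b, b', b1, b2, b3, b4, b5⟩
  · exact absurd hw h
  have := branch_adj hT a2 b2 a4 a3 b3
    (Relation.ReflTransGen.trans a5 (Relation.ReflTransGen.trans ho (Out_symm b5)))
  exact Cn_trans a1 (Cn_trans this (Cn_symm b1))

end Pool.Agent.Hhelper43.Cube.C14S
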