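import Mathlib
import Pool.Agent.C14S.Room

set_option autoImplicit false

namespace Pool.Agent.Hhelper43.Cube.C14S

variable {n : ℕ}

/-- A route with exactly `k` colour changes from `a` to `b`; the second entry of a pair is the
current colour. -/
inductive St (χ : Sym2 (V n) → Bool) : ℕ → V n × Bool → V n × Bool → Prop
  | z (a : V n × Bool) : St χ 0 a a
  | e {k : ℕ} {u v : V n} {c : Bool} {b : V n × Bool} : E χ c u v → St χ k (v, c) b →
      St χ k (u, c) b
  | s {k : ℕ} {u : V n} {c : Bool} {b : V n × Bool} : St χ k (u, !c) b → St χ (k + 1) (u, c) b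

variable {χ : Sym2 (V n) → Bool}

lemma St_trans {k l : ℕ} {a b d : V n × Bool} (h : St χ k a b) (h' : St χ l b d) :
    St χ (k + l) a d := by
  induction h with
  | z a => rw [Nat.zero_add]; exact h'
  | e he _ ih => exact St.e he (ih h')
  | s _ ih =>
    rename_i k' u c b' _
    have := St.s (ih h')
    have e : k' + 1 + l = k' + l + 1 := by omega
    rw [e]; exact this

lemma St_symm {k : ℕ} {a b : V n × Bool} (h : St χ k a b) : St χ k b a := by
  induction h with
  | z a => exact St.z a
  | e he _ ih => exact St_trans ih (St.e (E_symm he) (St.z _))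
  | s _ ih =>
    rename_i k' u c b' _
    refine St_trans ih ?_
    have : St χ 0 (u, !(!c)) (u, c) := by rw [Bool.not_not]; exact St.z _
    exact St.s this

lemma St_par {k : ℕ} {a b : V n × Bool} (h : St χ k a b) : a.2 = b.2 ↔ Even k := by
  induction h with
  | z a => simp
  | e _ _ ih => exact ih
  | s _ ih =>
    rename_i k' u c b' _
    rw [Nat.even_add_one, ← ih]
    cases c <;> cases b'.2 <;> simp

lemma St_Cn {c : Bool} {x y : V n} (h : Cn χ c x y) : St χ 0 (x, c) (y, c) := by
  induction h using Relation.ReflTransGen.head_induction_on with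
  | refl => exact St.z _
  | head hab _ ih => exact St.e hab ih

lemma St_zero {k : ℕ} {a b : V n × Bool} (h : St χ k a b) (hk : k = 0) :
    a.2 = b.2 ∧ Cn χ a.2 a.1 b.1 := by
  induction h with
  | z a => exact ⟨rfl, Cn_refl _ _ _⟩
  | e he _ ih => exact ⟨(ih hk).1, Cn_trans (Cn_of_E he) (ih hk).2⟩
  | s _ _ => omega

lemma St_succ {l : ℕ} {a b : V n × Bool} (h : St χ l a b) (k : ℕ) (hl : l = k + 1) :
    ∃ z, Cn χ a.2 a.1 z ∧ St χ k (z, !a.2) b := by
  induction h with
  | z a => omega
  | e he _ ih =>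
    obtain ⟨z, h1, h2⟩ := ih hl
    exact ⟨z, Cn_trans (Cn_of_E he) h1, h2⟩
  | s h ih =>
    rename_i k' u c b'
    have : k' = k := by omega
    subst this
    exact ⟨u, Cn_refl _ _ _, h⟩

lemma walk_exists (x y : V n) : Nonempty ((Q n).Walk x y) := by
  obtain ⟨p, -⟩ := exists_walk (fun _ => true) (Finset.univ.filter fun i => x i ≠ y i).toList
    (Finset.nodup_toList _) x y (by
      funext i
      rw [endp_apply _ (Finset.nodup_toList _)]
      simp only [Finset.mem_toList, Finset.mem_filter, Finset.mem_univ, true_and]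
      cases h1 : x i <;> cases h2 : y i <;> simp)
  exact ⟨p⟩

lemma St_walk {x y : V n} (p : (Q n).Walk x y) (c c' : Bool) : ∃ k, St χ k (x, c) (y, c') := by
  induction p generalizing c with
  | nil =>
    rename_i u
    by_cases h : c = c'
    · subst h; exact ⟨0, St.z _⟩
    · have : c' = !c := by cases c <;> cases c' <;> simp_all
      subst this
      exact ⟨1, St.s (St.z _)⟩
  | cons hab p ih =>
    rename_i u v w
    by_cases h : χ s(u, v) = c
    · obtain ⟨k, hk⟩ := ih c
      exact ⟨k, St.e ⟨hab, h⟩ hk⟩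
    · obtain ⟨k, hk⟩ := ih (!c)
      refine ⟨k + 1, St.s (St.e ⟨hab, ?_⟩ hk)⟩
      cases h1 : χ s(u, v) <;> cases c <;> simp_all

lemma St_exists (χ : Sym2 (V n) → Bool) (a b : V n × Bool) : ∃ k, St χ k a b := by
  obtain ⟨p⟩ := walk_exists a.1 b.1
  exact St_walk p a.2 b.2

/-- The least number of colour changes of a route from `a` to `b`. -/
noncomputable def D (χ : Sym2 (V n) → Bool) (a b : V n × Bool) : ℕ := sInf {k | St χ k a b}

lemma D_st (χ : Sym2 (V n) → Bool) (a b : V n × Bool) : St χ (D χ a b) a b :=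
  Nat.sInf_mem (s := {k | St χ k a b}) (St_exists χ a b)

lemma D_le {k : ℕ} {a b : V n × Bool} (h : St χ k a b) : D χ a b ≤ k := Nat.sInf_le h

lemma D_symm (a b : V n × Bool) : D χ a b = D χ b a :=
  le_antisymm (D_le (St_symm (D_st χ b a))) (D_le (St_symm (D_st χ a b)))

lemma D_tri (a b d : V n × Bool) : D χ a d ≤ D χ a b + D χ b d :=
  D_le (St_trans (D_st χ a b) (D_st χ b d))

lemma D_par (a b : V n × Bool) : a.2 = b.2 ↔ Even (D χ a b) := St_par (D_st χ a b)

lemma D_zero {a b : V n × Bool} (h : D χ a b = 0) : a.2 = b.2 ∧ Cn χ a.2 a.1 b.1 :=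
  St_zero (D_st χ a b) h

lemma D_zero_of {c : Bool} {x y : V n} (h : Cn χ c x y) : D χ (x, c) (y, c) = 0 :=
  Nat.le_zero.mp (D_le (St_Cn h))

lemma D_nb (x : V n) (c : Bool) (b : V n × Bool) : D χ (x, c) b ≤ D χ (x, !c) b + 1 :=
  D_le (St.s (D_st χ _ _))

lemma D_nb' (x : V n) (c : Bool) (b : V n × Bool) : D χ (x, !c) b ≤ D χ (x, c) b + 1 := by
  have := D_nb (χ := χ) x (!c) b
  rwa [Bool.not_not] at this

lemma D_Cn {c : Bool} {x y : V n} (h : Cn χ c x y) (b : V n × Bool) :
    D χ (x, c) b = D χ (y, c) b := by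
  have h1 := D_tri (χ := χ) (x, c) (y, c) b
  have h2 := D_tri (χ := χ) (y, c) (x, c) b
  rw [D_zero_of h] at h1
  rw [D_zero_of (Cn_symm h)] at h2
  omega

lemma D_Cn' {c : Bool} {x y : V n} (h : Cn χ c x y) (a : V n × Bool) :
    D χ a (x, c) = D χ a (y, c) := by
  rw [D_symm, D_Cn h, D_symm]

/-- A route with few changes avoids a far component. -/
lemma St_out {c : Bool} {x : V n} {k : ℕ} {a b : V n × Bool} (h : St χ k a b)
    (hk : k + 2 ≤ D χ (x, c) b) : Out χ c x a.1 b.1 := by
  have aux : ∀ {k : ℕ} {u : V n} {c2 : Bool} {b : V n × Bool}, St χ k (u, c2) b →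
      k + 2 ≤ D χ (x, c) b → ¬ Cn χ c x u := by
    intro k u c2 b h hk hu
    rw [D_Cn hu] at hk
    by_cases hc : c2 = c
    · subst hc
      have := D_le h
      omega
    · have : c2 = !c := by cases c <;> cases c2 <;> simp_all
      subst this
      have := D_le (St.s h)
      omega
  induction h with
  | z a => exact Relation.ReflTransGen.refl
  | e he h ih =>
    exact Relation.ReflTransGen.head ⟨he.1, aux (St.e he h) hk, aux h hk⟩ (ih hk)
  | s h ih => exact ih (by omega)

lemma St_notin {c : Bool} {x : V n} {k : ℕ} {u : V n} {c2 : Bool} {b : V n × Bool}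
    (h : St χ k (u, c2) b) (hk : k + 2 ≤ D χ (x, c) b) : ¬ Cn χ c x u := by
  intro hu
  rw [D_Cn hu] at hk
  by_cases hc : c2 = c
  · subst hc
    have := D_le h
    omega
  · have : c2 = !c := by cases c <;> cases c2 <;> simp_all
    subst this
    have := D_le (St.s h)
    omega

/-- The first class on the way to a far component is unique. -/
theorem uniq (hT : TL χ) {c : Bool} {x z w : V n} {b : V n × Bool} (hL : 2 ≤ D χ (x, c) b)
    (hz : Cn χ c x z) (hw : Cn χ c x w) (h1 : D χ (z, !c) b + 1 = D χ (x, c) b)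
    (h2 : D χ (w, !c) b + 1 = D χ (x, c) b) : Cn χ (!c) z w := by
  obtain ⟨k, hk⟩ : ∃ k, D χ (x, c) b = k + 2 := ⟨D χ (x, c) b - 2, by omega⟩
  obtain ⟨z1, a1, a2⟩ := St_succ (D_st χ (z, !c) b) k (by omega)
  obtain ⟨w1, b1, b2⟩ := St_succ (D_st χ (w, !c) b) k (by omega)
  have e1 := St_out (c := c) (x := x) a2 (by omega)
  have e2 := St_out (c := c) (x := x) b2 (by omega)
  have f1 := St_notin (c := c) (x := x) a2 (by omega)
  have f2 := St_notin (c := c) (x := x) b2 (by omega)
  exact branch hT hz hw f1 f2 a1 b1 (Relation.ReflTransGen.trans e1 (Out_symm e2))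

/-- The least number of changes of a route between two vertices, the first and last colours
being free. -/
noncomputable def K (χ : Sym2 (V n) → Bool) (x y : V n) : ℕ :=
  min (min (D χ (x, true) (y, true)) (D χ (x, true) (y, false)))
    (min (D χ (x, false) (y, true)) (D χ (x, false) (y, false)))

lemma K_eq (c c' : Bool) (x y : V n) : K χ x y =
    min (min (D χ (x, c) (y, c')) (D χ (x, c) (y, !c')))
      (min (D χ (x, !c) (y, c')) (D χ (x, !c) (y, !c'))) := by
  unfold K
  cases c <;> cases c' <;> simp only [Bool.not_true, Bool.not_false] <;> omega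

open Classical in
/-- The distance of two vertices in the tree of components. -/
noncomputable def del (χ : Sym2 (V n) → Bool) (x y : V n) : ℕ :=
  if Cn χ true x y ∧ Cn χ false x y then 0 else K χ x y + 1

lemma both_iff (c : Bool) (x y : V n) :
    (Cn χ true x y ∧ Cn χ false x y) ↔ (Cn χ c x y ∧ Cn χ (!c) x y) := by
  cases c
  · simp only [Bool.not_false]; exact and_comm
  · simp only [Bool.not_true]

lemma four (hT : TL χ) {c c' : Bool} {z z' : V n} {L : ℕ} (hL : D χ (z, c) (z', c') = L)
    (h2 : 2 ≤ L) (h10 : D χ (z, !c) (z', c') + 1 = L) (h01 : D χ (z, c) (z', !c') + 1 = L) :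
    D χ (z, !c) (z', !c') + 2 = L := by
  obtain ⟨w, a1, a2⟩ := St_succ (D_st χ (z, c) (z', !c')) (L - 2) (by omega)
  simp only at a1 a2
  have e1 : D χ (w, !c) (z', !c') ≤ L - 2 := D_le a2
  have e2 : D χ (w, !c) (z', c') ≤ D χ (w, !c) (z', !c') + 1 := by
    rw [D_symm, D_symm (w, !c)]
    exact D_nb z' c' _
  have e3 := D_nb (χ := χ) w c (z', c')
  have e4 := D_Cn a1 (z', c')
  have e5 := uniq hT (x := z) (z := z) (w := w) (c := c) (b := (z', c')) (by omega)
    (Cn_refl _ _ _) a1 (by omega) (by omega)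
  have e6 := D_Cn e5 (z', !c')
  have e7 := D_nb' (χ := χ) z c (z', c')
  have e8 : D χ (z, !c) (z', c') ≤ D χ (z, !c) (z', !c') + 1 := by
    rw [D_symm, D_symm (z, !c)]
    exact D_nb z' c' _
  omega

open Classical in
/-- The distance of two vertices read off from the two ends of the route between two
components. -/
lemma del_eq (hT : TL χ) {c c' : Bool} {z z' : V n} {L : ℕ} (hL : D χ (z, c) (z', c') = L)
    (h1 : 1 ≤ L) : del χ z z' + (if D χ (z, !c) (z', c') + 1 = L then 1 else 0)
      + (if D χ (z, c) (z', !c') + 1 = L then 1 else 0) = L + 1 := by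
  have n1 := D_nb (χ := χ) z c (z', c')
  have n2 := D_nb' (χ := χ) z c (z', c')
  have n3 := D_nb (χ := χ) z c (z', !c')
  have n4 := D_nb' (χ := χ) z c (z', !c')
  have n5 := D_nb (χ := χ) z' c' (z, c)
  have n6 := D_nb' (χ := χ) z' c' (z, c)
  have n7 := D_nb (χ := χ) z' c' (z, !c)
  have n8 := D_nb' (χ := χ) z' c' (z, !c)
  rw [D_symm (z', c'), D_symm (z', !c')] at n5 n6 n7 n8
  have p1 := D_par (χ := χ) (z, c) (z', c')
  have p2 := D_par (χ := χ) (z, !c) (z', c')
  have p3 := D_par (χ := χ) (z, c) (z', !c')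
  have p4 := D_par (χ := χ) (z, !c) (z', !c')
  simp only at p1 p2 p3 p4
  have hK := K_eq (χ := χ) c c' z z'
  have h4 := four hT hL
  unfold del
  by_cases hcc : c = c'
  · have hn : ¬ (Cn χ true z z' ∧ Cn χ false z z') := by
      rw [both_iff c]
      rintro ⟨h, -⟩
      have := D_zero_of h
      subst hcc
      omega
    rw [if_neg hn, hK]
    have q1 : Even (D χ (z, c) (z', c')) := p1.mp hcc
    have q2 : ¬ Even (D χ (z, !c) (z', c')) := by
      rw [← p2, hcc]; simp
    have q3 : ¬ Even (D χ (z, c) (z', !c')) := by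
      rw [← p3, hcc]; simp
    have q4 : Even (D χ (z, !c) (z', !c')) := by
      rw [← p4, hcc]
    rw [Nat.even_iff] at q1 q2 q3 q4
    generalize D χ (z, c) (z', c') = a00 at *
    generalize D χ (z, !c) (z', c') = a10 at *
    generalize D χ (z, c) (z', !c') = a01 at *
    generalize D χ (z, !c) (z', !c') = a11 at *
    subst hL
    have h4' := h4 (by omega)
    split_ifs with g1 g2 g2
    · have := h4' g1 g2
      omega
    · omega
    · omega
    · omega
  · have hc' : c' = !c := by cases c <;> cases c' <;> simp_all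
    have q1 : ¬ Even (D χ (z, c) (z', c')) := fun h => hcc (p1.mpr h)
    have q2 : Even (D χ (z, !c) (z', c')) := by
      rw [← p2, hc']
    have q3 : Even (D χ (z, c) (z', !c')) := by
      rw [← p3, hc']; simp
    have q4 : ¬ Even (D χ (z, !c) (z', !c')) := by
      rw [← p4, hc']; simp
    rw [Nat.even_iff] at q1 q2 q3 q4
    have hb : (Cn χ true z z' ∧ Cn χ false z z') ↔
        (D χ (z, c) (z', !c') = 0 ∧ D χ (z, !c) (z', c') = 0) := by
      rw [both_iff c]
      subst hc'
      rw [Bool.not_not]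
      constructor
      · rintro ⟨h, h'⟩
        exact ⟨D_zero_of h, D_zero_of h'⟩
      · rintro ⟨h, h'⟩
        exact ⟨(D_zero h).2, (D_zero h').2⟩
    simp only [hb, hK]
    generalize D χ (z, c) (z', c') = a00 at *
    generalize D χ (z, !c) (z', c') = a10 at *
    generalize D χ (z, c) (z', !c') = a01 at *
    generalize D χ (z, !c) (z', !c') = a11 at *
    subst hL
    clear hb hK
    by_cases g : 2 ≤ a00
    · have h4' := h4 g
      split_ifs with g0 g1 g2 g2 g1 g2 g2 <;> omega
    · split_ifs with g0 g1 g2 g2 g1 g2 g2 <;> omega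

/-- The four point property of two edges. -/
theorem quad (hT : TL χ) {p q p' q' : V n} (h : (Q n).Adj p q) (h' : (Q n).Adj p' q') :
    (del χ p q' ≤ 1 ∧ del χ q p' ≤ 1) ∨
      (del χ p q' + del χ q p' = del χ p p' + del χ q q' ∧ del χ p q' ≤ del χ q p' + 2 ∧
        del χ q p' ≤ del χ p q' + 2) := by
  classical
  have hc : Cn χ (χ s(p, q)) p q := Cn_of_E ⟨h, rfl⟩
  have hc' : Cn χ (χ s(p', q')) p' q' := Cn_of_E ⟨h', rfl⟩
  generalize χ s(p, q) = c at *
  generalize χ s(p', q') = c' at *
  obtain ⟨L, hL⟩ : ∃ L, D χ (p, c) (p', c') = L := ⟨_, rfl⟩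
  have hL1 : D χ (p, c) (q', c') = L := by rw [← D_Cn' hc', hL]
  have hL2 : D χ (q, c) (p', c') = L := by rw [← D_Cn hc, hL]
  have hL3 : D χ (q, c) (q', c') = L := by rw [← D_Cn' hc', hL2]
  have hK : ∀ z z', D χ (z, c) (z', c') = 0 → del χ z z' ≤ 1 := by
    intro z z' hz
    have := K_eq (χ := χ) c c' z z'
    unfold del
    split_ifs
    · omega
    · rw [this]; omega
  rcases Nat.eq_zero_or_pos L with h0 | h1
  · left
    subst h0
    exact ⟨hK _ _ hL1, hK _ _ hL2⟩
  · right
    have e1 := del_eq hT hL h1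
    have e2 := del_eq hT hL1 h1
    have e3 := del_eq hT hL2 h1
    have e4 := del_eq hT hL3 h1
    rw [← D_Cn' hc' (p, !c), ← D_Cn hc (p', !c')] at *
    rw [← D_Cn' hc' (q, !c), ← D_Cn hc (q', !c')] at *
    generalize del χ p p' = d1 at *
    generalize del χ p q' = d2 at *
    generalize del χ q p' = d3 at *
    generalize del χ q q' = d4 at *
    split_ifs at e1 e2 e3 e4 <;> omega

lemma del_self (v : V n) : del χ v v = 0 := by
  unfold del
  rw [if_pos ⟨Cn_refl _ _ _, Cn_refl _ _ _⟩]

end Pool.Agent.Hhelper43.Cube.C14S
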