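import Mathlib
import Pool.Agent.C14S.Dist

set_option autoImplicit false

namespace Pool.Agent.Hhelper43.Cube.C14S

variable {n : ℕ}

lemma changes_cons_le (c : Bool) (l : List Bool) : changes l ≤ changes (c :: l) := by
  cases l with
  | nil => simp [changes]
  | cons b l => rw [changes]; omega

lemma changes_swap (c d : Bool) (l : List Bool) : changes (c :: l) ≤
    (if c = d then 0 else 1) + changes (d :: l) := by
  cases l with
  | nil => simp [changes]
  | cons b l =>
    rw [changes, changes]
    cases c <;> cases d <;> cases b <;> simp <;> omega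

lemma changes_sub_cons {l1 l2 : List Bool} (h : l1.Sublist l2) (c : Bool) :
    changes (c :: l1) ≤ changes (c :: l2) := by
  induction h generalizing c with
  | slnil => exact le_refl _
  | cons b _ ih =>
    refine (changes_swap c b _).trans ?_
    rw [changes]
    exact Nat.add_le_add_left (ih b) _
  | cons_cons b _ ih =>
    rw [changes, changes]
    exact Nat.add_le_add_left (ih b) _

lemma changes_sub {l1 l2 : List Bool} (h : l1.Sublist l2) : changes l1 ≤ changes l2 := by
  induction h with
  | slnil => exact le_refl _
  | cons b _ ih => exact ih.trans (changes_cons_le _ _)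
  | cons_cons b h _ => exact changes_sub_cons h b

variable {χ : Sym2 (V n) → Bool}

lemma walk_of_St {k : ℕ} {a b : V n × Bool} (h : St χ k a b) :
    ∃ p : (Q n).Walk a.1 b.1, changes (a.2 :: p.edges.map χ) ≤ k := by
  induction h with
  | z a => exact ⟨SimpleGraph.Walk.nil, by simp [changes]⟩
  | e he _ ih =>
    obtain ⟨p, hp⟩ := ih
    refine ⟨SimpleGraph.Walk.cons he.1 p, ?_⟩
    rw [SimpleGraph.Walk.edges_cons, List.map_cons, he.2, changes]
    simpa using hp
  | s _ ih =>
    obtain ⟨p, hp⟩ := ih
    refine ⟨p, ?_⟩
    rename_i k' u c b' _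
    have := changes_swap c (!c) (List.map χ p.edges)
    have e : (if c = !c then 0 else 1) = 1 := by cases c <;> rfl
    rw [e] at this
    simp only at hp ⊢
    omega

lemma m_le_D (v : V n) (c c' : Bool) : m χ v ≤ D χ (v, c) (anti v, c') := by
  classical
  obtain ⟨p, hp⟩ := walk_of_St (D_st χ (v, c) (anti v, c'))
  simp only at p hp
  have h1 : changes (p.bypass.edges.map χ) ≤ changes (p.edges.map χ) :=
    changes_sub (List.Sublist.map χ (SimpleGraph.Walk.edges_bypass_sublist_edges p))
  have h2 : m χ v ≤ changes (p.bypass.edges.map χ) :=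
    Nat.sInf_le ⟨p.bypass, p.bypass_isPath, rfl⟩
  have h3 := changes_cons_le c (p.edges.map χ)
  omega

lemma m_le_del (v : V n) : m χ v + 1 ≤ max (del χ v (anti v)) 1 := by
  have h1 := m_le_D (χ := χ) v true true
  have h2 := m_le_D (χ := χ) v true false
  have h3 := m_le_D (χ := χ) v false true
  have h4 := m_le_D (χ := χ) v false false
  unfold del
  split_ifs with h
  · have := D_zero_of h.1
    omega
  · unfold K
    omega

end Pool.Agent.Hhelper43.Cube.C14S
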