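import Mathlib
import Pool.Agent.Hhelper43.Cube.Defs
import Pool.Agent.Hhelper43.Cube.Upper
import Pool.Agent.Hhelper43.Cube.Lower
import Pool.Agent.C14S.Coc

set_option autoImplicit false

namespace Pool.Agent.Hhelper43.Cube.C14S

open Finset

/-- The average of the two unit translates. -/
noncomputable def TT (Ψ : ℝ → ℝ) (t : ℝ) : ℝ := (Ψ (t + 1) + Ψ (t - 1)) / 2

lemma TT_convex {Ψ : ℝ → ℝ} (hc : ConvexOn ℝ Set.univ Ψ) : ConvexOn ℝ Set.univ (TT Ψ) := by
  refine ⟨convex_univ, ?_⟩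
  intro x _ y _ a b ha hb hab
  have h1 := hc.2 (Set.mem_univ (x + 1)) (Set.mem_univ (y + 1)) ha hb hab
  have h2 := hc.2 (Set.mem_univ (x - 1)) (Set.mem_univ (y - 1)) ha hb hab
  simp only [smul_eq_mul] at h1 h2 ⊢
  unfold TT
  have e1 : a * x + b * y + 1 = a * (x + 1) + b * (y + 1) := by
    linear_combination (-1 : ℝ) * hab
  have e2 : a * x + b * y - 1 = a * (x - 1) + b * (y - 1) := by
    linear_combination hab
  rw [e1, e2]
  linarith

lemma TT_even {Ψ : ℝ → ℝ} (he : ∀ x, Ψ (-x) = Ψ x) (t : ℝ) : TT Ψ (-t) = TT Ψ t := by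
  unfold TT
  have e1 : -t + 1 = -(t - 1) := by ring
  have e2 : -t - 1 = -(t + 1) := by ring
  rw [e1, e2, he, he, add_comm]

lemma cvx {Ψ : ℝ → ℝ} (hc : ConvexOn ℝ Set.univ Ψ) (x y a b : ℝ) (ha : 0 ≤ a) (hb : 0 ≤ b)
    (hab : a + b = 1) : Ψ (a * x + b * y) ≤ a * Ψ x + b * Ψ y := by
  have := hc.2 (Set.mem_univ x) (Set.mem_univ y) ha hb hab
  simpa only [smul_eq_mul] using this

lemma mid {Ψ : ℝ → ℝ} (hc : ConvexOn ℝ Set.univ Ψ) (x y : ℝ) :
    2 * Ψ ((x + y) / 2) ≤ Ψ x + Ψ y := by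
  have h1 := cvx hc x y (1 / 2) (1 / 2) (by norm_num) (by norm_num) (by norm_num)
  have e : 1 / 2 * x + 1 / 2 * y = (x + y) / 2 := by ring
  rw [e] at h1
  linarith

lemma step_one {Ψ : ℝ → ℝ} (hc : ConvexOn ℝ Set.univ Ψ) (he : ∀ x, Ψ (-x) = Ψ x) (t : ℝ) :
    Ψ 1 ≤ TT Ψ t := by
  have := mid hc (t + 1) (-(t - 1))
  rw [he] at this
  have e : (t + 1 + -(t - 1)) / 2 = 1 := by ring
  rw [e] at this
  unfold TT
  linarith

lemma zero_le_one' {Ψ : ℝ → ℝ} (hc : ConvexOn ℝ Set.univ Ψ) (he : ∀ x, Ψ (-x) = Ψ x) :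
    Ψ 0 ≤ Ψ 1 := by
  have := mid hc 1 (-1)
  rw [he] at this
  norm_num at this
  linarith

lemma step_two {Ψ : ℝ → ℝ} (hc : ConvexOn ℝ Set.univ Ψ) (x y X Y : ℝ) (h1 : x + y = X + Y)
    (h2 : x ≤ y + 2) (h3 : y ≤ x + 2) : Ψ x + Ψ y ≤ TT Ψ X + TT Ψ Y := by
  have a1 := mid hc (X + 1) (Y + 1)
  have a2 := mid hc (X - 1) (Y - 1)
  have b1 := cvx hc ((X + 1 + (Y + 1)) / 2) ((X - 1 + (Y - 1)) / 2)
    ((2 + (x - y)) / 4) ((2 - (x - y)) / 4) (by linarith) (by linarith) (by ring)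
  have b2 := cvx hc ((X + 1 + (Y + 1)) / 2) ((X - 1 + (Y - 1)) / 2)
    ((2 - (x - y)) / 4) ((2 + (x - y)) / 4) (by linarith) (by linarith) (by ring)
  have e1 : (2 + (x - y)) / 4 * ((X + 1 + (Y + 1)) / 2) + (2 - (x - y)) / 4 *
      ((X - 1 + (Y - 1)) / 2) = x := by
    linear_combination (-1 / 2 : ℝ) * h1
  have e2 : (2 - (x - y)) / 4 * ((X + 1 + (Y + 1)) / 2) + (2 + (x - y)) / 4 *
      ((X - 1 + (Y - 1)) / 2) = y := by
    linear_combination (-1 / 2 : ℝ) * h1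
  rw [e1] at b1
  rw [e2] at b2
  unfold TT
  linarith

/-- The four point property of the distance of two edges. -/
def QP {k : ℕ} (δ : V k → V k → ℕ) : Prop :=
  ∀ p q p' q' : V k, (Q k).Adj p q → (Q k).Adj p' q' →
    (δ p q' ≤ 1 ∧ δ q p' ≤ 1) ∨
      (δ p q' + δ q p' = δ p p' + δ q q' ∧ δ p q' ≤ δ q p' + 2 ∧ δ q p' ≤ δ p q' + 2)

lemma anti_cons {k : ℕ} (b : Bool) (v : V k) :
    anti (Fin.cons b v : V (k + 1)) = Fin.cons (!b) (anti v) := by
  funext i
  unfold anti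
  refine Fin.cases ?_ (fun j => ?_) i
  · simp
  · simp

lemma adj_cons {k : ℕ} (b : Bool) {v w : V k} (h : (Q k).Adj v w) :
    (Q (k + 1)).Adj (Fin.cons b v) (Fin.cons b w) := by
  obtain ⟨i, rfl⟩ := adj_iff v w h
  rw [← flip_cons_succ]
  exact adj_flip _ _

lemma adj_tf {k : ℕ} (v : V k) :
    (Q (k + 1)).Adj (Fin.cons true v) (Fin.cons false v) := by
  have := adj_flip (Fin.cons true v : V (k + 1)) 0
  rw [flip_cons_zero] at this
  exact this

/-- The sum over antipodal pairs is at most the one of the layered colouring. -/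
theorem facet : ∀ (k : ℕ) (δ : V k → V k → ℕ) (_ : QP δ) (_ : ∀ v, δ v v = 0)
    (Ψ : ℝ → ℝ) (_ : ConvexOn ℝ Set.univ Ψ) (_ : ∀ x, Ψ (-x) = Ψ x),
    ∑ v : V k, Ψ (δ v (anti v)) ≤ ∑ v : V k, Ψ ((k : ℝ) - 2 * wt v)
  | 0, δ, _, h0, Ψ, _, _ => by
    refine Finset.sum_le_sum fun v _ => ?_
    have e1 : anti v = v := by
      funext i
      exact i.elim0
    have e2 : wt v = 0 := by
      unfold wt
      simp
    rw [e1, h0, e2]
    simp
  | k + 1, δ, hQ, h0, Ψ, hc, he => by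
    have hb : ∀ b : Bool, ∑ v : V k, TT Ψ (δ (Fin.cons b v) (Fin.cons b (anti v)))
        ≤ ∑ v : V k, TT Ψ ((k : ℝ) - 2 * wt v) := by
      intro b
      exact facet k (fun v w => δ (Fin.cons b v) (Fin.cons b w))
        (fun p q p' q' h h' => hQ _ _ _ _ (adj_cons b h) (adj_cons b h'))
        (fun v => h0 _) (TT Ψ) (TT_convex hc) (TT_even he)
    rw [sum_cons, sum_cons]
    have h1 : ∑ v : V k, (Ψ (δ (Fin.cons true v) (anti (Fin.cons true v)))
        + Ψ (δ (Fin.cons false v) (anti (Fin.cons false v))))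
        ≤ ∑ v : V k, (TT Ψ (δ (Fin.cons true v) (Fin.cons true (anti v)))
          + TT Ψ (δ (Fin.cons false v) (Fin.cons false (anti v)))) := by
      refine Finset.sum_le_sum fun v _ => ?_
      rw [anti_cons, anti_cons, Bool.not_true, Bool.not_false]
      rcases hQ _ _ _ _ (adj_tf v) (adj_tf (anti v)) with ⟨a, b⟩ | ⟨a, b, c⟩
      · have t : ∀ j : ℕ, j ≤ 1 → Ψ j ≤ Ψ 1 := by
          intro j hj
          interval_cases j
          · simpa using zero_le_one' hc he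
          · simp
        have := t _ a
        have := t _ b
        have := step_one hc he (δ (Fin.cons true v) (Fin.cons true (anti v)))
        have := step_one hc he (δ (Fin.cons false v) (Fin.cons false (anti v)))
        linarith
      · refine step_two hc _ _ _ _ ?_ ?_ ?_
        · exact_mod_cast a
        · exact_mod_cast b
        · exact_mod_cast c
    refine h1.trans ?_
    rw [Finset.sum_add_distrib]
    refine (add_le_add (hb true) (hb false)).trans (le_of_eq ?_)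
    rw [← Finset.sum_add_distrib]
    refine Finset.sum_congr rfl fun v _ => ?_
    rw [wt_cons, wt_cons]
    unfold TT
    simp only [if_true, Bool.false_eq_true, if_false]
    push_cast
    have e1 : (k : ℝ) + 1 - 2 * (1 + wt v) = (k : ℝ) - 2 * wt v - 1 := by ring
    have e2 : (k : ℝ) + 1 - 2 * (0 + wt v) = (k : ℝ) - 2 * wt v + 1 := by ring
    rw [e1, e2]
    ring

end Pool.Agent.Hhelper43.Cube.C14S
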