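import Mathlib
import Pool.Agent.C14S.Defs
import Pool.Agent.C14S.WalkM
import Pool.Agent.C14S.Facet

set_option autoImplicit false

namespace Pool.Agent.Hhelper43.Cube.C14S

open Finset

variable {n : ℕ}

lemma layered_mk (x y : V n) : layered n s(x, y) = decide (Even (min (wt x) (wt y))) := rfl

lemma treeLike_of_simple {χ : Sym2 (V n) → Bool} (h : Simple χ) : TreeLike χ :=
  fun a b c d hab hbc hcd hda hac hbd h1 h2 h3 =>
    absurd ⟨h1, h2, h3⟩ (h a b c d hab hbc hcd hda hac hbd)

lemma layered_simple (n : ℕ) : Simple (layered n) := by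
  rintro a b c d hab hbc hcd hda hac hbd ⟨h1, -, -⟩
  obtain ⟨i, rfl⟩ := adj_iff _ _ hab
  obtain ⟨j, rfl⟩ := adj_iff _ _ hbc
  obtain ⟨k, rfl⟩ := adj_iff _ _ hcd
  obtain ⟨l, hl⟩ := adj_iff _ _ hda
  have hij : i ≠ j := by
    rintro rfl
    exact hac (flip_flip _ _).symm
  have hjk : j ≠ k := by
    rintro rfl
    exact hbd (flip_flip _ _).symm
  have hlj : l = j := by
    by_contra hne
    have := congrFun hl j
    simp only [flip_apply] at this
    rw [if_neg (Ne.symm hne), if_neg hjk, if_pos trivial, if_neg hij.symm] at this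
    simp at this
  subst hlj
  have hki : k = i := by
    by_contra hne
    have := congrFun hl i
    simp only [flip_apply] at this
    rw [if_neg hij, if_neg (Ne.symm hne), if_neg hij, if_pos trivial] at this
    simp at this
  subst hki
  rw [layered_mk, layered_mk, decide_eq_decide, Nat.even_iff, Nat.even_iff] at h1
  have w1 := wt_flip a k
  have w2 := wt_flip (flip a k) l
  have w3 := wt_flip (flip (flip a k) l) k
  have e : flip (flip a k) l k = !(a k) := by
    rw [flip_apply, if_neg hij, flip_apply, if_pos rfl]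
  rw [e] at w3
  cases hk : a k
  · rw [hk] at w1 w3
    simp only [Bool.false_eq_true, false_and, true_and, false_or, Bool.not_false, or_false,
      Bool.true_eq_false] at w1 w3
    have w2' : wt (flip (flip a k) l) + 1 = wt (flip a k) ∨
        wt (flip (flip a k) l) = wt (flip a k) + 1 := by
      rcases w2 with w2 | w2
      · left; exact w2.2
      · right; exact w2.2
    clear w2 hl hab hbc hcd hda hac hbd e
    generalize wt a = x0 at *
    generalize wt (flip a k) = x1 at *
    generalize wt (flip (flip a k) l) = x2 at *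
    generalize wt (flip (flip (flip a k) l) k) = x3 at *
    rcases w2' with w2 | w2 <;> omega
  · rw [hk] at w1 w3
    simp only [Bool.false_eq_true, false_and, true_and, false_or, Bool.not_true, or_false,
      Bool.true_eq_false] at w1 w3
    have w2' : wt (flip (flip a k) l) + 1 = wt (flip a k) ∨
        wt (flip (flip a k) l) = wt (flip a k) + 1 := by
      rcases w2 with w2 | w2
      · left; exact w2.2
      · right; exact w2.2
    clear w2 hl hab hbc hcd hda hac hbd e
    generalize wt a = x0 at *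
    generalize wt (flip a k) = x1 at *
    generalize wt (flip (flip a k) l) = x2 at *
    generalize wt (flip (flip (flip a k) l) k) = x3 at *
    rcases w2' with w2 | w2 <;> omega

lemma layered_treeLike (n : ℕ) : TreeLike (layered n) := treeLike_of_simple (layered_simple n)

lemma lay_walk {u v : V n} (p : (Q n).Walk u v) (a : V n) (hau : (Q n).Adj a u) :
    ∃ l : ℕ, l ≤ wt v ∧ wt v ≤ l + 1 ∧
      |(min (wt a) (wt u) : ℤ) - l| ≤ (changes (layered n s(a, u) :: p.edges.map (layered n)) : ℤ) := by
  induction p generalizing a with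
  | nil =>
    rename_i u
    have hn := wt_near _ _ (Or.inr hau)
    refine ⟨min (wt a) (wt u), ?_, ?_, ?_⟩
    · omega
    · omega
    · simp [changes]
  | cons hub p ih =>
    rename_i u b v
    obtain ⟨l, h1, h2, h3⟩ := ih u hub
    refine ⟨l, h1, h2, ?_⟩
    rw [SimpleGraph.Walk.edges_cons, List.map_cons, changes]
    have hn := wt_near _ _ (Or.inr hau)
    have hn' := wt_near _ _ (Or.inr hub)
    rw [layered_mk, layered_mk]
    rw [layered_mk] at h3
    generalize wt a = x at *
    generalize wt u = y at *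
    generalize wt b = z at *
    generalize changes (decide (Even (min y z)) :: List.map (layered n) p.edges) = C at *
    have key : |(min x y : ℤ) - min y z| ≤
        (if decide (Even (min x y)) = decide (Even (min y z)) then 0 else 1 : ℕ) := by
      by_cases hc : min x y = min y z
      · have hc' : (min x y : ℤ) = min y z := by exact_mod_cast hc
        rw [hc', hc]
        simp
      · have hne : ¬ (decide (Even (min x y)) = decide (Even (min y z))) := by
          rw [decide_eq_decide]
          intro hiff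
          rw [Nat.even_iff, Nat.even_iff] at hiff
          omega
        rw [if_neg hne]
        push_cast
        rw [abs_le]
        constructor <;> omega
    have t1 := abs_sub_le (min x y : ℤ) (min y z) l
    push_cast at key ⊢
    linarith

/-- The number of colour changes at a vertex in the layered colouring. -/
def lvl {n : ℕ} (v : V n) : ℕ := max (n - 2 * wt v) (2 * wt v - n) - 1

lemma lay_lower (v : V n) : lvl v ≤ m (layered n) v := by
  have hne : {k : ℕ | ∃ p : (Q n).Walk v (anti v), p.IsPath ∧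
      changes (p.edges.map (layered n)) = k}.Nonempty := by
    obtain ⟨p, hp, -, -⟩ := exists_walk (layered n) (univ : Finset (Fin n)).toList
      (Finset.nodup_toList _) v (anti v)
      (endp_univ _ (Finset.nodup_toList _) (Finset.toList_toFinset _) v).symm
    exact ⟨_, p, hp, rfl⟩
  obtain ⟨p, hp, hm⟩ := Nat.sInf_mem hne
  have hm' : changes (p.edges.map (layered n)) = m (layered n) v := hm
  rw [← hm']
  have hw := wt_anti v
  clear hm hm' hne hp
  have gen : ∀ (w : V n) (q : (Q n).Walk v w), w = anti v →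
      lvl v ≤ changes (q.edges.map (layered n)) := by
    intro w q hw'
    cases q with
    | nil =>
      have : wt (anti v) = wt v := by rw [← hw']
      unfold lvl
      omega
    | cons hvb q =>
      rename_i b
      obtain ⟨l, h1, h2, h3⟩ := lay_walk q v hvb
      rw [hw'] at h1 h2
      have hn := wt_near _ _ (Or.inr hvb)
      rw [SimpleGraph.Walk.edges_cons, List.map_cons]
      generalize changes (layered n s(v, b) :: List.map (layered n) q.edges) = C at *
      rw [abs_le] at h3
      unfold lvl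
      omega
  exact gen _ p rfl

/-! ### Sums -/

lemma lvl_real (v : V n) : ((lvl v : ℕ) : ℝ) = max |(n : ℝ) - 2 * wt v| 1 - 1 := by
  have h : ((lvl v : ℕ) : ℤ) = max |(n : ℤ) - 2 * wt v| 1 - 1 := by
    unfold lvl
    rcases le_total (2 * wt v) n with h | h
    · rw [abs_of_nonneg (by omega)]
      omega
    · rw [abs_of_nonpos (by omega)]
      omega
  have h' : (((lvl v : ℕ) : ℤ) : ℝ) = ((max |(n : ℤ) - 2 * wt v| 1 - 1 : ℤ) : ℝ) := by rw [h]
  push_cast at h'
  exact h'

lemma sum_lvl_even (h : ℕ) : ∑ v : V (2 * h), ((lvl v : ℕ) : ℤ)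
    = (2 * h + 1) * (Nat.centralBinom h : ℤ) - 4 ^ h := by
  have h1 : ∀ v : V (2 * h), ((lvl v : ℕ) : ℤ)
      = |((2 * h : ℕ) : ℤ) - 2 * wt v| + (if wt v = h then (1 : ℤ) else 0) - 1 := by
    intro v
    unfold lvl
    rcases lt_trichotomy (wt v) h with g | g | g
    · rw [if_neg (by omega), abs_of_nonneg (by omega)]
      omega
    · rw [if_pos g, g]
      simp
    · rw [if_neg (by omega), abs_of_nonpos (by omega)]
      omega
  rw [Finset.sum_congr rfl (fun v _ => h1 v), Finset.sum_sub_distrib, Finset.sum_add_distrib,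
    sum_ite_half, ← Nat.centralBinom_eq_two_mul_choose]
  have h2 := aSum_even h
  unfold aSum at h2
  rw [h2]
  simp only [Finset.sum_const, Finset.card_univ, Fintype.card_pi, Fintype.card_bool,
    Finset.prod_const, Fintype.card_fin, nsmul_eq_mul]
  push_cast
  rw [pow_mul]
  norm_num
  ring

lemma sum_lvl_odd (h : ℕ) : ∑ v : V (2 * h + 1), ((lvl v : ℕ) : ℤ)
    = 2 * ((2 * h + 1) * (Nat.centralBinom h : ℤ) - 4 ^ h) := by
  have h1 : ∀ v : V (2 * h + 1), ((lvl v : ℕ) : ℤ)
      = |((2 * h + 1 : ℕ) : ℤ) - 2 * wt v| - 1 := by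
    intro v
    unfold lvl
    rcases le_total (wt v) h with g | g
    · rw [abs_of_nonneg (by omega)]
      omega
    · by_cases g' : wt v = h
      · rw [abs_of_nonneg (by omega)]
        omega
      · rw [abs_of_nonpos (by omega)]
        omega
  rw [Finset.sum_congr rfl (fun v _ => h1 v), Finset.sum_sub_distrib]
  have e1 : aSum (2 * h + 1) = 2 * aSum (2 * h) + 2 * (Nat.centralBinom h : ℤ) := by
    rw [aSum_succ]
    congr 2
    rw [Nat.centralBinom_eq_two_mul_choose, ← sum_ite_half (2 * h) h]
    refine Finset.sum_congr rfl fun v _ => ?_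
    congr 1
    exact propext ⟨fun h => by omega, fun h => by omega⟩
  have h2 := aSum_even h
  rw [h2] at e1
  unfold aSum at e1
  rw [e1]
  simp only [Finset.sum_const, Finset.card_univ, Fintype.card_pi, Fintype.card_bool,
    Finset.prod_const, Fintype.card_fin, nsmul_eq_mul]
  push_cast
  rw [pow_succ, pow_mul]
  norm_num
  ring

lemma sum_lvl (n : ℕ) : (∑ v : V n, ((lvl v : ℕ) : ℝ)) / 2 ^ n
    = (2 * (n / 2 : ℕ) + 1) * (Nat.centralBinom (n / 2) : ℝ) / 4 ^ (n / 2) - 1 := by
  rcases Nat.even_or_odd' n with ⟨h, rfl | rfl⟩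
  · have e : 2 * h / 2 = h := by omega
    rw [e]
    have h1 := sum_lvl_even h
    have h2 : ∑ v : V (2 * h), ((lvl v : ℕ) : ℝ)
        = (2 * h + 1) * (Nat.centralBinom h : ℝ) - 4 ^ h := by exact_mod_cast h1
    rw [h2, pow_mul]
    have h4 : (0 : ℝ) < 4 ^ h := by positivity
    have h5 : ((2 : ℝ) ^ 2) ^ h = 4 ^ h := by norm_num
    rw [h5, sub_div, div_self h4.ne']
  · have e : (2 * h + 1) / 2 = h := by omega
    rw [e]
    have h1 := sum_lvl_odd h
    have h2 : ∑ v : V (2 * h + 1), ((lvl v : ℕ) : ℝ)
        = 2 * ((2 * h + 1) * (Nat.centralBinom h : ℝ) - 4 ^ h) := by exact_mod_cast h1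
    rw [h2, pow_succ, pow_mul]
    have h4 : (0 : ℝ) < 4 ^ h := by positivity
    have h5 : ((2 : ℝ) ^ 2) ^ h = 4 ^ h := by norm_num
    rw [h5, mul_comm (4 ^ h : ℝ) 2, mul_div_mul_left _ _ (by norm_num : (2 : ℝ) ≠ 0), sub_div,
      div_self h4.ne']

lemma psi_convex {Ψ : ℝ → ℝ} (hc : ConvexOn ℝ (Set.Ici 0) Ψ) (hm : MonotoneOn Ψ (Set.Ici 0)) :
    ConvexOn ℝ Set.univ (fun x => Ψ (max |x| 1 - 1)) := by
  refine ⟨convex_univ, ?_⟩
  intro x _ y _ a b ha hb hab
  have hx : (0 : ℝ) ≤ max |x| 1 - 1 := by
    have := le_max_right |x| 1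
    linarith
  have hy : (0 : ℝ) ≤ max |y| 1 - 1 := by
    have := le_max_right |y| 1
    linarith
  have hz : (0 : ℝ) ≤ max |a * x + b * y| 1 - 1 := by
    have := le_max_right |a * x + b * y| 1
    linarith
  have h1 : max |a * x + b * y| 1 - 1 ≤ a * (max |x| 1 - 1) + b * (max |y| 1 - 1) := by
    have e : a * (max |x| 1 - 1) + b * (max |y| 1 - 1) = a * max |x| 1 + b * max |y| 1 - 1 := by
      linear_combination (-1 : ℝ) * hab
    rw [e, sub_le_sub_iff_right]
    refine max_le ?_ ?_
    · refine (abs_add_le _ _).trans ?_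
      rw [abs_mul, abs_mul, abs_of_nonneg ha, abs_of_nonneg hb]
      exact add_le_add (mul_le_mul_of_nonneg_left (le_max_left _ _) ha)
        (mul_le_mul_of_nonneg_left (le_max_left _ _) hb)
    · have q1 := mul_le_mul_of_nonneg_left (le_max_right |x| 1) ha
      have q2 := mul_le_mul_of_nonneg_left (le_max_right |y| 1) hb
      linarith
  have h2 := hm (Set.mem_Ici.mpr hz) (Set.mem_Ici.mpr (hz.trans h1)) h1
  have h3 := hc.2 (Set.mem_Ici.mpr hx) (Set.mem_Ici.mpr hy) ha hb hab
  simp only [smul_eq_mul] at h3 ⊢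
  exact h2.trans h3

/-- Sums of convex nondecreasing functions of the numbers of colour changes. -/
theorem main_sum {χ : Sym2 (V n) → Bool} (hT : TreeLike χ) (Ψ : ℝ → ℝ)
    (hc : ConvexOn ℝ (Set.Ici 0) Ψ) (hm : MonotoneOn Ψ (Set.Ici 0)) :
    ∑ v : V n, Ψ (m χ v) ≤ ∑ v : V n, Ψ (lvl v) := by
  have hTL := TL_of hT
  have h1 : ∑ v : V n, Ψ (m χ v) ≤ ∑ v : V n, Ψ (max |((del χ v (anti v) : ℕ) : ℝ)| 1 - 1) := by
    refine Finset.sum_le_sum fun v _ => ?_
    have h := m_le_del (χ := χ) v
    have h' : ((m χ v : ℕ) : ℝ) + 1 ≤ max ((del χ v (anti v) : ℕ) : ℝ) 1 := by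
      exact_mod_cast h
    rw [abs_of_nonneg (Nat.cast_nonneg _)]
    refine hm (Set.mem_Ici.mpr (Nat.cast_nonneg _)) (Set.mem_Ici.mpr ?_) (by linarith)
    have := le_max_right ((del χ v (anti v) : ℕ) : ℝ) 1
    linarith
  refine h1.trans ?_
  have h2 := facet n (del χ) (fun p q p' q' h h' => quad hTL h h') (fun v => del_self v)
    (fun x => Ψ (max |x| 1 - 1)) (psi_convex hc hm) (fun x => by simp only [abs_neg])
  refine h2.trans (le_of_eq ?_)
  refine Finset.sum_congr rfl fun v _ => ?_
  rw [lvl_real]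

lemma m_layered (v : V n) : m (layered n) v = lvl v := by
  have h1 := main_sum (layered_treeLike n) (fun x => x) (convexOn_id (convex_Ici 0))
    (fun _ _ _ _ h => h)
  have h1' : ∑ v : V n, m (layered n) v ≤ ∑ v : V n, lvl v := by exact_mod_cast h1
  have h2 : ∑ v : V n, lvl v ≤ ∑ v : V n, m (layered n) v :=
    Finset.sum_le_sum fun v _ => lay_lower v
  have h3 := (Finset.sum_eq_sum_iff_of_le (fun v (_ : v ∈ (univ : Finset (V n))) =>
    lay_lower v)).mp (le_antisymm h2 h1')
  exact (h3 v (Finset.mem_univ v)).symm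

end Pool.Agent.Hhelper43.Cube.C14S
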